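import Mathlib

/-!
# Project OD: the Lieb-Thirring kinetic inequality for odd systems: statements of the packages
-/

set_option autoImplicit false

open MeasureTheory FourierTransform Set Filter Topology

namespace Pool.Agent.U280.OD

/-- The space `ℝ^d`. -/
abbrev E (d : ℕ) : Type := EuclideanSpace ℝ (Fin d)

/-- The symbol `4π²|ξ|²` of `-Δ`. -/
noncomputable def lam {d : ℕ} (ξ : E d) : ℝ := 4 * Real.pi ^ 2 * ‖ξ‖ ^ 2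

/-- `2 τ^(1/2) l^(3/2) exp (-τ l)` -/
noncomputable def mu (τ l : ℝ) : ℝ := 2 * Real.sqrt τ * (l * Real.sqrt l) * Real.exp (-(τ * l))

/-- `π^(-1/2) (1 - (1 - 1/t)_+^(1/2))` for `t > 0` -/
noncomputable def phi (t : ℝ) : ℝ := (1 - Real.sqrt (1 - 1 / t)) / Real.sqrt Real.pi

/-- `exp (s Δ) u` as a Fourier integral -/
noncomputable def heat {d : ℕ} (s : ℝ) (u : E d → ℂ) (x : E d) : ℂ :=
  𝓕⁻ (fun ξ : E d => ((Real.exp (-(s * lam ξ)) : ℝ) : ℂ) * 𝓕 u ξ) x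

/-- `2 τ^(1/2) (-Δ)^(3/2) exp ((τ + ε) Δ) u` as a Fourier integral -/
noncomputable def bop {d : ℕ} (ε τ : ℝ) (u : E d → ℂ) (x : E d) : ℂ :=
  𝓕⁻ (fun ξ : E d => ((mu τ (lam ξ) * Real.exp (-(ε * lam ξ)) : ℝ) : ℂ) * 𝓕 u ξ) x

/-- the heat kernel -/
noncomputable def G {d : ℕ} (s : ℝ) (y : E d) : ℝ :=
  (4 * Real.pi * s) ^ (-(d : ℝ) / 2) * Real.exp (-‖y‖ ^ 2 / (4 * s))

/-- `|∇u|²` -/
noncomputable def grad2 {d : ℕ} (u : E d → ℂ) (x : E d) : ℝ :=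
  ∑ i : Fin d, ‖fderiv ℝ u x (EuclideanSpace.single i (1 : ℝ))‖ ^ 2

/-- The semiclassical constant. -/
noncomputable def Kcl (d : ℕ) : ℝ :=
  (d : ℝ) / ((d : ℝ) + 2) * (2 * Real.pi) ^ 2 /
    ((volume (Metric.ball (0 : E d) 1)).toReal) ^ (2 / (d : ℝ))

/-- The factor `d / ((d + 2) log 2) * (8 ω_d / (d + 2)²)^(2/d)`, `ω_d` the volume of the unit ball. -/
noncomputable def fac (d : ℕ) : ℝ :=
  (d : ℝ) / (((d : ℝ) + 2) * Real.log 2) *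
    (8 * (volume (Metric.ball (0 : E d) 1)).toReal / ((d : ℝ) + 2) ^ 2) ^ (2 / (d : ℝ))

/-! ### The packages -/

/-- Package A1: the decomposition `1 = exp (-s l) + ∫ φ(τ/s) μ(τ, l) dτ`, and `∫ μ(τ, l)² dτ = l`. -/
def S_A1 : Prop :=
  (∀ s l : ℝ, 0 < s → 0 ≤ l → IntegrableOn (fun τ => phi (τ / s) * mu τ l) (Ioi 0) ∧
    ∫ τ in Ioi (0 : ℝ), phi (τ / s) * mu τ l = 1 - Real.exp (-(s * l))) ∧
  ∀ l : ℝ, 0 ≤ l → ∫⁻ τ in Ioi (0 : ℝ), ENNReal.ofReal (mu τ l ^ 2) ≤ ENNReal.ofReal l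

/-- Package A2: `φ ≥ 0` and `∫ φ(τ/s)² dτ = s (2 log 2) / π`. -/
def S_A2 : Prop :=
  (∀ t : ℝ, 0 < t → 0 ≤ phi t) ∧ Measurable phi ∧
  ∀ s : ℝ, 0 < s → IntegrableOn (fun τ => phi (τ / s) ^ 2) (Ioi 0) ∧
    ∫ τ in Ioi (0 : ℝ), phi (τ / s) ^ 2 = s * (2 * Real.log 2 / Real.pi)

/-- Package B: the Bessel inequality with the factor `1/2` for systems whose span `V` satisfies
`∫ |w| w = 0` for all `w ∈ V`. -/
def S_B : Prop :=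
  ∀ (d N : ℕ) (u : Fin N → E d → ℂ), (∀ n, Continuous (u n)) → (∀ n, HasCompactSupport (u n)) →
    (∀ n m, ∫ x, star (u n x) * u m x = if n = m then (1 : ℂ) else 0) →
    (∀ c : Fin N → ℂ, ∫ x, ((‖∑ n, c n * u n x‖ : ℝ) : ℂ) * ∑ n, c n * u n x = 0) →
    ∀ s : ℝ, 0 < s → ∀ x : E d, ∑ n, ‖∫ y, ((G s (x - y) : ℝ) : ℂ) * u n y‖ ^ 2 ≤
      1 / 2 * (8 * Real.pi * s) ^ (-(d : ℝ) / 2)

/-- Package C: the heat semigroup as a convolution, and its limit. -/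
def S_C : Prop :=
  ∀ (d : ℕ) (u : E d → ℂ), Continuous u → HasCompactSupport u →
    (∀ s : ℝ, 0 < s → ∀ x, heat s u x = ∫ y, ((G s (x - y) : ℝ) : ℂ) * u y) ∧
    ∀ x, Tendsto (fun s => heat s u x) (𝓝[>] 0) (𝓝 (u x))

/-- Package D, first part: measurability. -/
def S_D1 : Prop :=
  ∀ (d : ℕ) (u : E d → ℂ), Continuous u → HasCompactSupport u → ∀ ε : ℝ, 0 < ε →
    StronglyMeasurable (fun p : E d × ℝ => bop ε p.2 u p.1)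

/-- Package D, second part: the pointwise decomposition. -/
def S_D2 : Prop :=
  ∀ (d : ℕ) (u : E d → ℂ), Continuous u → HasCompactSupport u → ∀ ε s : ℝ, 0 < ε → 0 < s →
    ∀ x, heat ε u x - heat (s + ε) u x =
      ∫ τ in Ioi (0 : ℝ), ((phi (τ / s) : ℝ) : ℂ) * bop ε τ u x

/-- Package F1: Plancherel and integration over `τ`. -/
def S_F1 : Prop :=
  ∀ (d : ℕ) (u : E d → ℂ), Continuous u → HasCompactSupport u → ∀ ε : ℝ, 0 < ε →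
    ∫⁻ x, ∫⁻ τ in Ioi (0 : ℝ), ‖bop ε τ u x‖ₑ ^ 2 ≤ ∫⁻ ξ, ENNReal.ofReal (lam ξ) * ‖𝓕 u ξ‖ₑ ^ 2

/-- Package F2: the kinetic energy in Fourier space. -/
def S_F2 : Prop :=
  ∀ (d : ℕ) (u : E d → ℂ), ContDiff ℝ 1 u → HasCompactSupport u →
    ∫⁻ ξ, ENNReal.ofReal (lam ξ) * ‖𝓕 u ξ‖ₑ ^ 2 ≤ ∫⁻ x, ENNReal.ofReal (grad2 u x)

/-- Package GN, first part: optimization over `s`. -/
def S_G : Prop :=
  ∀ (d : ℕ) (ρ t A Φ : ℝ), 1 ≤ d → 0 ≤ ρ → 0 ≤ t → 0 < A → 0 < Φ →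
    (∀ s : ℝ, 0 < s → Real.sqrt ρ ≤ Real.sqrt (s * Φ * t) + Real.sqrt (A * s ^ (-(d : ℝ) / 2))) →
    (2 / ((d : ℝ) + 2)) ^ (4 / (d : ℝ)) * ((d : ℝ) / ((d : ℝ) + 2)) ^ 2 /
      (Φ * A ^ (2 / (d : ℝ))) * ρ ^ (1 + 2 / (d : ℝ)) ≤ t

/-- Package GN, second part: the constants. -/
def S_N : Prop :=
  (∀ d : ℕ, 1 ≤ d → (2 / ((d : ℝ) + 2)) ^ (4 / (d : ℝ)) * ((d : ℝ) / ((d : ℝ) + 2)) ^ 2 /
      (2 * Real.log 2 / Real.pi * (1 / 2 * (8 * Real.pi) ^ (-(d : ℝ) / 2)) ^ (2 / (d : ℝ))) =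
    fac d * Kcl d) ∧
  1.51 ≤ fac 1 ∧ 1.13 ≤ fac 2 ∧ 1.05 ≤ fac 3 ∧ 1.007 ≤ fac 4

end Pool.Agent.U280.OD
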